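import Pool.Agent.LensU.Main

set_option autoImplicit false

/-!
# Almost all lens spaces are spectrally unique

For every `n`, the proportion of the isometry classes of `(2n-1)`-dimensional lens spaces with fundamental
group of order at most `x` that are determined by their spectrum among the lens spaces of the same dimension and the
same order of the fundamental group tends to `1` as the real number `x` tends to infinity.
-/

namespace Pool.Agent.Results.MP_4a0c19_gt.AlmostAllUnique

open Filter Topology Pool.Agent.LensU

/-- Almost all lens spaces are spectrally unique. -/
theorem result : ∀ n : ℕ, 1 ≤ n → Tendsto (U n) atTop (𝓝 1) :=
  fun n hn => tendsto_real n hn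

end Pool.Agent.Results.MP_4a0c19_gt.AlmostAllUnique
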